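import Pool.Agent.Helper17.OD.GoalsGE

/-!
# Packet NRD: name reduction
-/

namespace Pool.Agent.Helper17.OD.PkNRD

open Set

/-- The order with bounds. -/
def LL (F : FD) (j : O) (u x : T) : Prop := u ∈ D (Iio F.κ) ∧ x ∈ D (Iio F.κ) ∧ F.Le j u x

/-- The graph of the amalgam. -/
def AA (F : FD) (j : O) (t q x : T) : Prop := t ∈ F.P j ∧ q ∈ F.P F.κ ∧ F.Le j t q ∧ x = am t q j

/-- `s` is below some `u` with `pr y u ∈ τ`. -/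
def Pos (F : FD) (τ : Set T) (y s : T) : Prop :=
  ∃ u ∈ D (Iio F.γ), Tr.pr y u ∈ τ ∧ LL F F.κ s u

/-- `r` forces `y` into the set. -/
def B1 (F : FD) (τ : Set T) (y r : T) : Prop :=
  r ∈ F.P F.κ ∧ ∀ s ∈ D (Iio F.γ), (s ∈ F.P F.κ ∧ LL F F.κ s r) →
    ∃ s' ∈ D (Iio F.γ), s' ∈ F.P F.κ ∧ LL F F.κ s' s ∧ Pos F τ y s'

/-- `r` forces `y` out of the set. -/
def B0 (F : FD) (τ : Set T) (y r : T) : Prop :=
  r ∈ F.P F.κ ∧ ∀ s ∈ D (Iio F.γ), (s ∈ F.P F.κ ∧ LL F F.κ s r) → ¬ Pos F τ y s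

/-- `r` decides `y`. -/
def EE (F : FD) (τ : Set T) (y r : T) : Prop := B1 F τ y r ∨ B0 F τ y r

/-- `q` reduces. -/
def RR (F : FD) (τ : Set T) (J μ : O) (q : T) : Prop :=
  ∀ y ∈ D (Iio F.γ), y ∈ D (Iio μ) → ∀ t ∈ D (Iio F.γ), (t ∈ F.P J ∧ LL F J t q) →
    ∃ t' ∈ D (Iio F.γ), t' ∈ F.P J ∧ LL F J t' t ∧ ∃ x ∈ D (Iio F.γ), AA F J t' q x ∧ EE F τ y x

section SD

variable {F : FD} {τ : Set T}

theorem som (F : FD) : SOM F.γ F.M F.M := F.g.m1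

theorem sdLL (hPIM : G_PIM) (F : FD) {j : O} (hj : j ≤ F.κ) :
    SD F.γ F.M F.M (fun e _ => LL F j e.fst e.snd) := by
  obtain ⟨-, h2, -⟩ := hPIM F
  have h := h2.sub (t := fun e => .pr (.ord j) (.pr e.fst e.snd))
    ((ST.ordc (lt_of_le_of_lt hj F.g.kg)).pr (ST.id.fst.pr ST.id.snd))
  refine h.congr ?_
  intro e _ σ _
  constructor
  · rintro ⟨i, hi, h1, h3, h4, h5⟩
    injection h1 with h1
    subst h1
    exact ⟨h3, h4, h5⟩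
  · rintro ⟨h3, h4, h5⟩
    exact ⟨j, hj, rfl, h3, h4, h5⟩

theorem sdAA (hAMG : G_AMG) (F : FD) {j : O} (hj : j < F.κ) :
    SD F.γ F.M F.M (fun e _ => AA F j e.fst e.snd.fst e.snd.snd) := by
  obtain ⟨-, h2⟩ := hAMG F
  have h := h2.sub (t := fun e => .pr (.ord j) (.pr e.fst (.pr e.snd.fst e.snd.snd)))
    ((ST.ordc (hj.trans F.g.kg)).pr (ST.id.fst.pr (ST.id.snd.fst.pr ST.id.snd.snd)))
  refine h.congr ?_
  intro e _ σ _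
  constructor
  · rintro ⟨i, hi, h1, h3, h4, h5, h6⟩
    injection h1 with h1
    subst h1
    exact ⟨h3, h4, h5, h6⟩
  · rintro ⟨h3, h4, h5, h6⟩
    exact ⟨j, hj, rfl, h3, h4, h5, h6⟩

attribute [local irreducible] LL AA Pos B1 B0 EE

theorem sdPos (hPIM : G_PIM) (F : FD) {τ : Set T} (hτ : τ ∈ F.M) :
    SD F.γ F.M F.M (fun e _ => Pos F τ e.fst e.snd) := by
  have := som F
  have hL := sdLL hPIM F (le_refl F.κ)
  unfold Pos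
  apply_rules (maxDepth := 200) [SD.exT, SD.allT, SD.mem, SD.eq, SD.not, SD.and, SD.or, SD.imp, ST.id, ST.fst,
    ST.snd, ST.pr, ST.nat, SV.par, SD.app2 hL]

theorem sdB1 (hPIM : G_PIM) (F : FD) {τ : Set T} (hτ : τ ∈ F.M) :
    SD F.γ F.M F.M (fun e _ => B1 F τ e.fst e.snd) := by
  have := som F
  have hL := sdLL hPIM F (le_refl F.κ)
  have hP := sdPos hPIM F hτ
  have hPk := (hPIM F).2.2 F.κ (le_refl F.κ)
  unfold B1
  apply_rules (maxDepth := 200) [SD.exT, SD.allT, SD.mem, SD.eq, SD.not, SD.and, SD.or, SD.imp, ST.id, ST.fst,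
    ST.snd, ST.pr, ST.nat, SV.par, SD.app2 hL, SD.app2 hP]

theorem sdB0 (hPIM : G_PIM) (F : FD) {τ : Set T} (hτ : τ ∈ F.M) :
    SD F.γ F.M F.M (fun e _ => B0 F τ e.fst e.snd) := by
  have := som F
  have hL := sdLL hPIM F (le_refl F.κ)
  have hP := sdPos hPIM F hτ
  have hPk := (hPIM F).2.2 F.κ (le_refl F.κ)
  unfold B0
  apply_rules (maxDepth := 200) [SD.exT, SD.allT, SD.mem, SD.eq, SD.not, SD.and, SD.or, SD.imp, ST.id, ST.fst,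
    ST.snd, ST.pr, ST.nat, SV.par, SD.app2 hL, SD.app2 hP]

theorem sdEE (hPIM : G_PIM) (F : FD) {τ : Set T} (hτ : τ ∈ F.M) :
    SD F.γ F.M F.M (fun e _ => EE F τ e.fst e.snd) := by
  unfold EE
  exact (sdB1 hPIM F hτ).or (sdB0 hPIM F hτ)

theorem sdRR (hPIM : G_PIM) (hAMG : G_AMG) (hSOB : G_SOB) (F : FD) {τ : Set T} (hτ : τ ∈ F.M)
    {J μ : O} (hJ : J < F.κ) (hμ : μ < F.κ) :
    SD F.γ F.M F.M (fun e _ => RR F τ J μ e) := by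
  have := som F
  have hL := sdLL hPIM F hJ.le
  have hA := sdAA hAMG F hJ
  have hE := sdEE hPIM F hτ
  have hPk := (hPIM F).2.2 J hJ.le
  have hD := (hSOB F.γ F.M F.M (som F)).2.1 μ (hμ.trans F.g.kg)
  unfold RR
  apply_rules (maxDepth := 200) [SD.exT, SD.allT, SD.mem, SD.eq, SD.not, SD.and, SD.or, SD.imp, ST.id, ST.fst,
    ST.snd, ST.pr, ST.nat, SV.par, SD.app2 hL, SD.app2 hE, SD.app3 hA]

end SD

/-- **Packet NRD.** -/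
theorem thm (hRED : G_RED) (hGNF : G_GNF) (hPIM : G_PIM) (hAMG : G_AMG) (hPRO : G_PRO)
    (hSOB : G_SOB) (hPBD : G_PBD) (hRES : G_RES) (hCNC : G_CNC) : G_NRD := by
  intro F G hG j μ hj hμ τ hτ hτs
  have hS : SOM F.γ F.M F.M := F.g.m1
  have hκγ := F.g.kg
  set J := Order.succ j with hJdef
  have hJ : J < F.κ := F.g.klim.succ_lt hj
  have hμκ : μ < F.κ := hμ.trans (F.e.lt j hj)
  obtain ⟨-, -, pim3⟩ := hPIM F
  obtain ⟨pbd1, pbd2, pbd3, -, -, -, -, -⟩ := hPBD F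
  obtain ⟨pro1, pro2, pro3, -, -⟩ := hPRO F
  obtain ⟨res1, -, -⟩ := hRES F
  obtain ⟨amg1, -⟩ := hAMG F
  obtain ⟨-, sob2, -, -, -, sob6, -, sob8, -⟩ := hSOB F.γ F.M F.M hS
  obtain ⟨gnf1, gnf2, gnf3, -⟩ := hGNF F G hG
  obtain ⟨cnc1, -, cnc3, -, -, -, -⟩ := hCNC
  have hDκ : D (Iio F.κ) ⊆ D (Iio F.γ) := D_mono (Iio_subset_Iio hκγ.le)
  have hPκ : ∀ p ∈ F.P F.κ, p ∈ D (Iio F.γ) := fun p hp => hDκ (pbd2 _ hp)
  have hPJ : ∀ p ∈ F.P J, p ∈ F.P F.κ := fun p hp => pbd3 J F.κ hJ.le hp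
  -- translations
  have ll : ∀ i u x, u ∈ F.P F.κ → x ∈ F.P F.κ → (LL F i u x ↔ F.Le i u x) := by
    intro i u x hu hx
    unfold LL
    exact ⟨fun h => h.2.2, fun h => ⟨pbd2 _ hu, pbd2 _ hx, h⟩⟩
  have hτu : ∀ y u, Tr.pr y u ∈ τ → u ∈ F.P F.κ := by
    intro y u h
    obtain ⟨y', _, p, hp, he⟩ := hτs _ h
    injection he with h1 h2
    rw [h2]
    exact hp
  have pos : ∀ y s, s ∈ F.P F.κ → (Pos F τ y s ↔ ∃ u, Tr.pr y u ∈ τ ∧ F.Le F.κ s u) := by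
    intro y s hs
    unfold Pos
    constructor
    · rintro ⟨u, _, h1, h2⟩
      exact ⟨u, h1, (ll _ _ _ hs (hτu y u h1)).1 h2⟩
    · rintro ⟨u, h1, h2⟩
      exact ⟨u, hPκ _ (hτu y u h1), h1, (ll _ _ _ hs (hτu y u h1)).2 h2⟩
  have pmono : ∀ y s s', s ∈ F.P F.κ → s' ∈ F.P F.κ → F.Le F.κ s' s → Pos F τ y s →
      Pos F τ y s' := by
    intro y s s' hs hs' h h1
    obtain ⟨u, h2, h3⟩ := (pos y s hs).1 h1
    exact (pos y s' hs').2 ⟨u, h2, pro2 _ _ _ _ h h3⟩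
  have b1 : ∀ y r, B1 F τ y r ↔ r ∈ F.P F.κ ∧ ∀ s ∈ F.P F.κ, F.Le F.κ s r →
      ∃ s' ∈ F.P F.κ, F.Le F.κ s' s ∧ Pos F τ y s' := by
    intro y r
    unfold B1
    constructor
    · rintro ⟨h1, h2⟩
      refine ⟨h1, fun s hs hsr => ?_⟩
      obtain ⟨s', _, h3, h4, h5⟩ := h2 s (hPκ s hs) ⟨hs, (ll _ _ _ hs h1).2 hsr⟩
      exact ⟨s', h3, (ll _ _ _ h3 hs).1 h4, h5⟩
    · rintro ⟨h1, h2⟩
      refine ⟨h1, fun s _ hs => ?_⟩
      obtain ⟨s', h3, h4, h5⟩ := h2 s hs.1 ((ll _ _ _ hs.1 h1).1 hs.2)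
      exact ⟨s', hPκ s' h3, h3, (ll _ _ _ h3 hs.1).2 h4, h5⟩
  have b0 : ∀ y r, B0 F τ y r ↔ r ∈ F.P F.κ ∧ ∀ s ∈ F.P F.κ, F.Le F.κ s r → ¬ Pos F τ y s := by
    intro y r
    unfold B0
    constructor
    · rintro ⟨h1, h2⟩
      exact ⟨h1, fun s hs hsr => h2 s (hPκ s hs) ⟨hs, (ll _ _ _ hs h1).2 hsr⟩⟩
    · rintro ⟨h1, h2⟩
      exact ⟨h1, fun s _ hs => h2 s hs.1 ((ll _ _ _ hs.1 h1).1 hs.2)⟩
  have ee : ∀ y r, EE F τ y r ↔ B1 F τ y r ∨ B0 F τ y r := fun y r => Iff.rfl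
  have eeP : ∀ y r, EE F τ y r → r ∈ F.P F.κ := by
    intro y r h
    rcases (ee y r).1 h with h | h
    · exact ((b1 y r).1 h).1
    · exact ((b0 y r).1 h).1
  -- the dense open sets
  have hDO : ∀ y ∈ D (Iio μ), F.DO {r | EE F τ y r} := by
    intro y hy
    have hyγ : y ∈ D (Iio F.γ) := D_mono (Iio_subset_Iio (hμκ.le.trans hκγ.le)) hy
    refine ⟨?_, fun r hr => eeP y r hr, ?_, ?_⟩
    · have h1 : SD F.γ F.M F.M (fun e _ => EE F τ y e) :=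
        (sdEE hPIM F hτ).sub (t := fun e => .pr y e) ((ST.const hyγ).pr ST.id)
      have h2 := sob8 (F.P F.κ) (pim3 F.κ (le_refl _)) _ h1
      have h3 : {r | EE F τ y r} = {x | x ∈ F.P F.κ ∧ EE F τ y x} := by
        ext r
        exact ⟨fun h => ⟨eeP y r h, h⟩, fun h => h.2⟩
      rw [h3]
      exact h2
    · intro p hp
      by_cases hc : ∃ s ∈ F.P F.κ, F.Le F.κ s p ∧ Pos F τ y s
      · obtain ⟨s, hs, hsp, hps⟩ := hc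
        refine ⟨s, (ee y s).2 (Or.inl ((b1 y s).2 ⟨hs, fun s' hs' h => ?_⟩)), hsp⟩
        exact ⟨s', hs', pro1 _ _, pmono y s s' hs hs' h hps⟩
      · refine ⟨p, (ee y p).2 (Or.inr ((b0 y p).2 ⟨hp, fun s hs h h' => ?_⟩)), pro1 _ _⟩
        exact hc ⟨s, hs, h, h'⟩
    · intro q hq r hr hrq
      rcases (ee y q).1 hq with h | h
      · obtain ⟨h1, h2⟩ := (b1 y q).1 h
        exact (ee y r).2 (Or.inl ((b1 y r).2 ⟨hr, fun s hs hsr =>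
          h2 s hs (pro2 _ _ _ _ hsr hrq)⟩))
      · obtain ⟨h1, h2⟩ := (b0 y q).1 h
        exact (ee y r).2 (Or.inr ((b0 y r).2 ⟨hr, fun s hs hsr =>
          h2 s hs (pro2 _ _ _ _ hsr hrq)⟩))
  have hDμ : D (Iio μ) ∈ F.M := sob2 μ (hμκ.trans hκγ)
  have hEM : {z : T | ∃ y ∈ D (Iio μ), ∃ p ∈ {r | EE F τ y r}, z = .pr y p} ∈ F.M := by
    have h1 := sob6 (D (Iio μ)) hDμ (F.P F.κ) (pim3 F.κ (le_refl _))
    have h2 := sob8 _ h1 _ (sdEE hPIM F hτ)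
    have h3 : {z : T | ∃ y ∈ D (Iio μ), ∃ p ∈ {r | EE F τ y r}, z = .pr y p} =
        {x | x ∈ {p : T | ∃ x ∈ D (Iio μ), ∃ y ∈ F.P F.κ, p = .pr x y} ∧
          EE F τ x.fst x.snd} := by
      ext z
      constructor
      · rintro ⟨y, hy, p, hp, rfl⟩
        exact ⟨⟨y, hy, p, eeP y p hp, rfl⟩, hp⟩
      · rintro ⟨⟨y, hy, p, hp, rfl⟩, h⟩
        exact ⟨y, hy, p, h, rfl⟩
    rw [h3]
    exact h2
  -- the reducing conditions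
  have hRM : {q | q ∈ F.P F.κ ∧ RR F τ J μ q} ∈ F.M :=
    sob8 (F.P F.κ) (pim3 F.κ (le_refl _)) _ (sdRR hPIM hAMG hSOB F hτ hJ hμκ)
  obtain ⟨p₀, hp₀⟩ := hG.ne
  obtain ⟨q, ⟨hqP, hqR⟩, hqG⟩ := gnf3 p₀ hp₀ _ hRM (by
    intro p hp _
    obtain ⟨q, hq, hqp, _, hq2⟩ := hRED F j μ hj hμ (fun y => {r | EE F τ y r}) hDO hEM p hp
    refine ⟨q, ⟨hq, ?_⟩, hq, hqp⟩
    intro y _ hy t _ ht
    obtain ⟨t', h1, h2, h3⟩ := hq2 y hy t ht.1 ((ll _ _ _ (hPJ t ht.1) hq).1 ht.2)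
    have h4 := (ll _ _ _ (hPJ t ht.1) hq).1 ht.2
    refine ⟨t', hPκ _ (hPJ t' h1), h1, (ll _ _ _ (hPJ t' h1) (hPJ t ht.1)).2 h2, am t' q J,
      hPκ _ (eeP y _ h3), ⟨h1, hq, pro2 _ _ _ _ h2 h4, rfl⟩, h3⟩)
  have hqR' : ∀ y ∈ D (Iio μ), ∀ t ∈ F.P J, F.Le J t q → ∃ t' ∈ F.P J, F.Le J t' t ∧
      EE F τ y (am t' q J) := by
    intro y hy t ht htq
    have hyγ : y ∈ D (Iio F.γ) := D_mono (Iio_subset_Iio (hμκ.le.trans hκγ.le)) hy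
    obtain ⟨t', _, h1, h2, x, _, h3, h4⟩ := hqR y hyγ hy t (hPκ _ (hPJ t ht))
      ⟨ht, (ll _ _ _ (hPJ t ht) hqP).2 htq⟩
    rw [h3.2.2.2] at h4
    exact ⟨t', h1, (ll _ _ _ (hPJ t' h1) (hPJ t ht)).1 h2, h4⟩
  -- the name
  set C : Set T := {z | z ∈ {p : T | ∃ x ∈ D (Iio μ), ∃ y ∈ F.P J, p = .pr x y} ∧
    ∃ x ∈ D (Iio F.γ), AA F J z.snd q x ∧ B1 F τ z.fst x} with hC
  have hCM : C ∈ F.M := by
    have h1 := sob6 (D (Iio μ)) hDμ (F.P J) (pim3 J hJ.le)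
    have hA := sdAA hAMG F hJ
    have hB := sdB1 hPIM F hτ
    have h2 : SD F.γ F.M F.M (fun z _ => ∃ x ∈ D (Iio F.γ), AA F J z.snd q x ∧
        B1 F τ z.fst x) := by
      refine SD.exT (P := fun z x _ => AA F J z.snd q x ∧ B1 F τ z.fst x) ?_
      exact (hA.app3 ST.id.snd.snd (ST.const (hPκ q hqP)) ST.id.fst).and
        (hB.app2 ST.id.snd.fst ST.id.fst)
    exact sob8 _ h1 _ h2
  have memC : ∀ y t, Tr.pr y t ∈ C ↔ y ∈ D (Iio μ) ∧ t ∈ F.P J ∧ F.Le J t q ∧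
      B1 F τ y (am t q J) := by
    intro y t
    rw [hC]
    constructor
    · rintro ⟨⟨y', hy', t', ht', he⟩, x, _, h1, h2⟩
      injection he with e1 e2
      subst e1
      subst e2
      refine ⟨hy', ht', h1.2.2.1, ?_⟩
      have h3 : x = am t q J := h1.2.2.2
      rw [← h3]
      exact h2
    · rintro ⟨h1, h2, h3, h4⟩
      exact ⟨⟨y, h1, t, h2, rfl⟩, am t q J, hPκ _ ((b1 _ _).1 h4).1, ⟨h2, hqP, h3, rfl⟩, h4⟩
  have hCs : ∀ z ∈ C, ∃ y ∈ D (Iio μ), ∃ p ∈ F.P J, z = Tr.pr y p := fun z hz => hz.1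
  obtain ⟨r, hr, hrP⟩ := pbd1 J hJ
  have hrκ : r < F.κ := hr.trans (F.e.lt J hJ)
  obtain ⟨c₀, hc₀, hCc⟩ := F.g.m2 C hCM (max μ r) (max_lt hμκ hrκ) (by
    intro z hz
    obtain ⟨y, hy, p, hp, rfl⟩ := hCs z hz
    exact pr_mem.2 ⟨D_mono (Iio_subset_Iio (le_max_left _ _)) hy,
      D_mono (Iio_subset_Iio (le_max_right _ _)) (hrP hp)⟩)
  obtain ⟨hc1, hc2⟩ := cnc1 C ⟨c₀, hCc.symm⟩
  have hc3 := cnc3 C F.κ ⟨c₀, hc₀, hCc.symm⟩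
  refine ⟨canon C, ⟨hc3, hc2, J, hJ, ?_⟩, ?_, ?_⟩
  · rw [hc1]
    intro z hz
    obtain ⟨y, _, p, hp, he⟩ := hCs z hz
    exact ⟨y, p, hp, he⟩
  · rw [hc1]
    exact hCs
  · rw [hc1]
    ext y
    constructor
    · rintro ⟨p, hpG, hpτ⟩
      have hyμ : y ∈ D (Iio μ) := by
        obtain ⟨y', hy', p', _, he⟩ := hτs _ hpτ
        injection he with e1 e2
        rw [e1]
        exact hy'
      -- find `t`
      have hyγ : y ∈ D (Iio F.γ) := D_mono (Iio_subset_Iio (hμκ.le.trans hκγ.le)) hyμ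
      have hXM : {z | z ∈ F.P F.κ ∧ ∃ t ∈ D (Iio F.γ), (t ∈ F.P J ∧ LL F F.κ z t) ∧
          ∃ x ∈ D (Iio F.γ), AA F J t q x ∧ EE F τ y x} ∈ F.M := by
        have hA := sdAA hAMG F hJ
        have hE := sdEE hPIM F hτ
        have hL := sdLL hPIM F (le_refl F.κ)
        have hP : SD F.γ F.M F.M (fun e _ => e ∈ F.P J) := SD.mem ST.id (SV.par (pim3 J hJ.le))
        refine sob8 _ (pim3 F.κ (le_refl _)) _ ?_
        refine SD.exT (P := fun z t _ => (t ∈ F.P J ∧ LL F F.κ z t) ∧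
          ∃ x ∈ D (Iio F.γ), AA F J t q x ∧ EE F τ y x) ?_
        refine SD.and ((hP.sub ST.id.fst).and (hL.app2 ST.id.snd ST.id.fst)) ?_
        refine SD.exT (P := fun e x _ => AA F J e.fst q x ∧ EE F τ y x) ?_
        exact (hA.app3 ST.id.snd.fst (ST.const (hPκ q hqP)) ST.id.fst).and
          (hE.app2 (ST.const hyγ) ST.id.fst)
      obtain ⟨z, ⟨_, t, _, ⟨htJ, hzt⟩, x, _, hx1, hx2⟩, hzG⟩ := gnf3 q hqG _ hXM (by
        intro r hr hrq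
        obtain ⟨a1, -, -, -, -, a6, -, -⟩ := res1 r hr J hJ.le
        obtain ⟨t', h1, h2, h3⟩ := hqR' y hyμ (res r J) a1
          (pro2 _ _ _ _ a6 (pro3 _ _ _ _ hJ.le hrq))
        have h4 : F.Le J t' r := pro2 _ _ _ _ h2 a6
        obtain ⟨c1, -, -, c4, c5, -, -, -⟩ := amg1 J hJ t' h1 r hr h4
        have h5 : F.Le F.κ (am t' r J) t' := by
          have := (res1 (am t' r J) c1 J hJ.le).2.2.2.2.2.2.2
          rw [c5] at this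
          exact this
        refine ⟨am t' r J, ⟨c1, t', hPκ _ (hPJ t' h1), ⟨h1, (ll _ _ _ c1 (hPJ t' h1)).2 h5⟩,
          am t' q J, hPκ _ (eeP _ _ h3), ⟨h1, hqP, pro2 _ _ _ _ h4 (pro3 _ _ _ _ hJ.le hrq),
          rfl⟩, h3⟩, c1, c4⟩)
      have htG : t ∈ G := hG.up z hzG t (hPJ t htJ) ((ll _ _ _ (hG.sub hzG) (hPJ t htJ)).1 hzt)
      obtain ⟨_, _, htq, rfl⟩ := hx1
      refine ⟨t, htG, (memC y t).2 ⟨hyμ, htJ, htq, ?_⟩⟩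
      have hamG : am t q J ∈ G := gnf2 J hJ t htG htJ q hqG htq
      rcases (ee _ _).1 hx2 with h | h
      · exact h
      · exfalso
        obtain ⟨u, huG, hu1, hu2⟩ := hG.dir _ hamG p hpG
        refine ((b0 _ _).1 h).2 u (hG.sub huG) hu1 ((pos y u (hG.sub huG)).2 ⟨p, hpτ, hu2⟩)
    · rintro ⟨t, htG, htC⟩
      obtain ⟨hyμ, htJ, htq, hB⟩ := (memC y t).1 htC
      have hyγ : y ∈ D (Iio F.γ) := D_mono (Iio_subset_Iio (hμκ.le.trans hκγ.le)) hyμ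
      have hamG : am t q J ∈ G := gnf2 J hJ t htG htJ q hqG htq
      have hXM : {s | s ∈ F.P F.κ ∧ Pos F τ y s} ∈ F.M := by
        have h1 : SD F.γ F.M F.M (fun e _ => Pos F τ y e) :=
          (sdPos hPIM F hτ).sub (t := fun e => .pr y e) ((ST.const hyγ).pr ST.id)
        exact sob8 _ (pim3 F.κ (le_refl _)) _ h1
      obtain ⟨s, ⟨hs1, hs2⟩, hsG⟩ := gnf3 _ hamG _ hXM (by
        intro r hr hrq
        obtain ⟨s', h1, h2, h3⟩ := ((b1 _ _).1 hB).2 r hr hrq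
        exact ⟨s', ⟨h1, h3⟩, h1, h2⟩)
      obtain ⟨u, hu1, hu2⟩ := (pos y s hs1).1 hs2
      exact ⟨u, hG.up s hsG u (hτu y u hu1) hu2, hu1⟩

end Pool.Agent.Helper17.OD.PkNRD
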