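import Pool.Agent.Helper17.OD.GoalsWM

/-! # ODC: elimination of ordinal definable parameters -/

namespace Pool.Agent.Helper17.OD.PkODC

open Set
open Pool.Agent.Helper97.Ku (Fml IsZFC)
open Pool.Agent.Helper17.OD

variable {W X : Set Z}

theorem emp_mem (hz : ZM W) : (∅ : Z) ∈ OrX W X :=
  ⟨hz.emp, Or.inl ZFSet.isOrdinal_empty⟩

theorem ps_orx (hz : ZM W) : PS W (OrX W X) := ⟨⟨_, emp_mem hz⟩, fun _ h => h.1⟩

theorem orx_odf {x : Z} (h : x ∈ OrX W X) : ODF W X x := by
  refine ⟨h.1, .eq 0 1, fun _ => ⟨x, h.1⟩, fun _ => h.2, fun y => ?_⟩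
  simp only [Fml.sat, Function.update_self]
  rw [Function.update_of_ne (by norm_num)]

theorem ps_odf (hz : ZM W) : PS W {x | ODF W X x} :=
  ⟨⟨∅, orx_odf (emp_mem hz)⟩, fun _ h => h.1⟩

theorem odf_def (hz : ZM W) {x : Z} (h : ODF W X x) :
    ∃ R : Z → Prop, DP W (OrX W X) (fun v => R (v 0)) ∧ ∀ y ∈ W, (R y ↔ y = x) := by
  obtain ⟨hx, φ, p, hp, hφ⟩ := h
  let p' : ℕ → Z := fun i => (p i : Z)
  have hp' : ∀ i, p' i ∈ OrX W X := fun i => ⟨(p i).2, hp i⟩
  refine ⟨fun y => SatW W φ (Function.update p' 0 y),
    ⟨fsub φ (fun i => if i = 0 then 0 else 2 * i + 1), p', hp', fun v hv => ?_⟩, fun y hy => ?_⟩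
  · rw [satW_fsub W _ _ _ (zmix_forall hv fun i => (hp' i).1)]
    have : (fun i => zmix v p' (if i = 0 then 0 else 2 * i + 1)) =
        Function.update p' 0 (v 0) := by
      funext i
      rcases i with _ | i
      · simp [zmix]
      · rw [Function.update_of_ne (by omega), if_neg (by omega), zmix_odd]
    rw [this]
  · have h1 := hφ ⟨y, hy⟩
    rw [sat_El] at h1
    have h2 : (fun i => ((Function.update p 0 ⟨y, hy⟩ i : W) : Z)) = Function.update p' 0 y := by
      funext i
      rcases i with _ | i
      · simp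
      · rw [Function.update_of_ne (by omega), Function.update_of_ne (by omega)]
    rw [h2] at h1
    refine h1.trans ?_
    exact ⟨fun h => congrArg Subtype.val h, fun h => Subtype.ext h⟩

theorem elim (hz : ZM W) (n : ℕ) : ∀ (φ : Fml) (p : ℕ → Z) (P : (ℕ → Z) → Prop),
    (∀ i, p i ∈ {x | ODF W X x}) → (∀ i, n ≤ i → p i ∈ OrX W X) →
    (∀ v : ℕ → Z, (∀ i, v i ∈ W) → (SatW W φ (zmix v p) ↔ P v)) → DP W (OrX W X) P := by
  induction n with
  | zero => exact fun φ p P _ h2 h3 => ⟨φ, p, fun i => h2 i (Nat.zero_le i), h3⟩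
  | succ n ih =>
    intro φ p P h1 h2 h3
    have hO : PS W (OrX W X) := ps_orx hz
    have hP' : DP W (OrX W X)
        (fun v => SatW W φ (zmix (fun i => v (i + 1)) (Function.update p n (v 0)))) := by
      have hq1 : ∀ i, Function.update p n ∅ i ∈ {x | ODF W X x} := by
        intro i
        by_cases hi : i = n
        · subst hi
          rw [Function.update_self]
          exact orx_odf (emp_mem hz)
        · rw [Function.update_of_ne hi]
          exact h1 i
      refine ih (fsub φ (fun i => if i % 2 = 0 then i + 2 else if i / 2 = n then 0 else i))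
        (Function.update p n ∅) _ hq1 (fun i hi => ?_) fun v hv => ?_
      · by_cases hin : i = n
        · subst hin
          rw [Function.update_self]
          exact emp_mem hz
        · rw [Function.update_of_ne hin]
          exact h2 i (by omega)
      · rw [satW_fsub W _ _ _ (zmix_forall hv fun i => (hq1 i).1)]
        have : (fun i => zmix v (Function.update p n ∅)
            (if i % 2 = 0 then i + 2 else if i / 2 = n then 0 else i)) =
            zmix (fun i => v (i + 1)) (Function.update p n (v 0)) := by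
          funext i
          rcases Nat.even_or_odd' i with ⟨m, rfl | rfl⟩
          · rw [if_pos (by omega), zmix_even, show 2 * m + 2 = 2 * (m + 1) by ring, zmix_even]
          · rw [if_neg (by omega), zmix_odd, show (2 * m + 1) / 2 = m by omega]
            by_cases hm : m = n
            · subst hm
              rw [if_pos rfl, Function.update_self]
              simp [zmix]
            · rw [if_neg hm, zmix_odd, Function.update_of_ne hm, Function.update_of_ne hm]
        rw [this]
    obtain ⟨R, hR, hRa⟩ := odf_def hz (h1 n)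
    have h4 : DP W (OrX W X)
        (fun v => ∃ y ∈ W, R y ∧ SatW W φ (zmix v (Function.update p n y))) :=
      DP.ex (P := fun y v => R y ∧ SatW W φ (zmix v (Function.update p n y))) (hR.and hP')
    refine h4.congr fun v hv => ?_
    rw [← h3 v hv]
    constructor
    · rintro ⟨y, hy, hRy, hs⟩
      rw [hRa y hy] at hRy
      subst hRy
      rw [Function.update_eq_self] at hs
      exact hs
    · intro hs
      refine ⟨p n, (h1 n).1, (hRa _ (h1 n).1).2 rfl, ?_⟩
      rw [Function.update_eq_self]
      exact hs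

theorem elim' (hz : ZM W) (P : (ℕ → Z) → Prop) (hP : DP W {x | ODF W X x} P) :
    DP W (OrX W X) P := by
  obtain ⟨φ, p, h1, h2⟩ := hP
  refine elim hz (fbd φ) φ (fun i => if i < fbd φ then p i else ∅) P (fun i => ?_)
    (fun i hi => ?_) fun v hv => ?_
  · by_cases hi : i < fbd φ
    · rw [if_pos hi]
      exact h1 i
    · rw [if_neg hi]
      exact orx_odf (emp_mem hz)
  · rw [if_neg (by omega)]
    exact emp_mem hz
  · rw [← h2 v hv]
    apply satW_agree
    intro i hi
    simp only [zmix]
    split_ifs
    · rfl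
    · rfl
    · omega

theorem thm : G_ODC := by
  intro W X hz
  refine ⟨fun P hP => elim' hz P hP, fun R hR x hx hxR => ?_, fun x hx => orx_odf hx,
    fun x hx => odf_def hz hx, ps_odf hz, ps_orx hz⟩
  obtain ⟨φ, p, hp, hφ⟩ := elim' hz _ hR
  have hq : ∀ i, zmix (fun _ => ∅) p i ∈ OrX W X := zmix_forall (fun _ => emp_mem hz) hp
  refine ⟨hx, φ, fun i => ⟨zmix (fun _ => ∅) p i, (hq i).1⟩, fun i => (hq i).2, fun y => ?_⟩
  rw [sat_El]
  have h1 : (fun i => ((Function.update (fun i => (⟨zmix (fun _ => ∅) p i, (hq i).1⟩ : W)) 0 y i :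
      W) : Z)) = zmix (zcons y (fun _ => ∅)) p := by
    funext i
    rcases i with _ | i
    · simp [zmix, zcons]
    · rw [Function.update_of_ne (by omega)]
      simp only [zmix]
      split_ifs with h
      · have : (i + 1) / 2 = (i + 1) / 2 - 1 + 1 := by omega
        rw [this]; rfl
      · rfl
  rw [h1, hφ _ (fun i => by cases i; exacts [y.2, hz.emp])]
  change R y ↔ _
  rw [hxR y y.2]
  exact ⟨fun h => Subtype.ext h, fun h => congrArg Subtype.val h⟩

end Pool.Agent.Helper17.OD.PkODC
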