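import Pool.Agent.Helper17.OD.GoalsZV

/-! # VOD: ordinal definable sets of trees -/

namespace Pool.Agent.Helper17.OD.PkVOD

open Set
open Pool.Agent.Helper97.Ku (Fml IsZFC)
open Pool.Agent.Helper17.OD

theorem thm (hTRF : G_TRF) (hEEV : G_EEV) (hSBC : G_SBC) (hEQM : G_EQM) (hVTR : G_VTR)
    (hCVL : G_CVL) (hCOD : G_COD) : G_VOD := by
  intro k S S' hS A hA d hd
  have := hS
  have hSS : SOM k S S := SOM.self (S' := S')
  obtain ⟨hAV, φ, p, hp, hφ⟩ := hA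
  obtain ⟨-, -, hE3, hE4, hE5, hE6⟩ := hEEV
  obtain ⟨-, hHt⟩ := (hVTR k S hSS).2
  obtain ⟨P, hPd, hP⟩ := hTRF k S S' hS φ
  obtain ⟨hq1, hq2, hq3⟩ := hEQM k S S' hS
  -- the codes of the parameters
  have hC : ∀ i, ∃ C ∈ S', IsCd S C ∧ Cvl (rel C) (p i : Z) (.nat 0) := by
    intro i
    have hord : (p i : Z).IsOrdinal := (hp i).resolve_right (by simp)
    have ha : ((p i : Z).rank).toZFSet = (p i : Z) := hord.toZFSet_rank_eq
    have hak : (p i : Z).rank < k := by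
      rw [← hHt, ha]
      exact (p i).2
    have hak' : Order.succ (p i : Z).rank < k := hS.lim.succ_lt hak
    have hm : tg 1 (.ord (p i : Z).rank) ∈ D (Iio (Order.succ (p i : Z).rank)) :=
      pr_mem.2 ⟨nat_mem _ _, ord_mem.2 (mem_Iio.2 (Order.lt_succ (p i : Z).rank))⟩
    obtain ⟨-, hsb, -⟩ := hSBC k S S' hS
    obtain ⟨h1, h2⟩ := (hE6 k S S' hS).2 _ hak'
    obtain ⟨C, hC1, hC2, hC3⟩ := hsb _ h1 h2 (tg 1 (.ord (p i : Z).rank))
      (D_mono (Iio_subset_Iio hak'.le) hm)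
    refine ⟨C, hC1, hC2, ?_⟩
    rw [hC3, hE5 _ _ hm]
    have := hE4 (p i : Z).rank
    rwa [ha] at this
  choose C hC1 hC2 hC3 using hC
  obtain ⟨hEd, hEc⟩ := (hE6 k S S' hS).2 d hd
  -- definability
  have hdef : SD k S S' (fun t _ => ∃ X ∈ S, (IsCd S X ∧ P (fun i => if i = 0 then X else C i)) ∧
      ∃ a ∈ D (Iio k), Tr.pr a (.nat 0) ∈ X ∧ Eqv S (rel X) (rel (EEs d)) a (tg 2 t)) := by
    refine SD.exS (P := fun t X _ => (IsCd S X ∧ P (fun i => if i = 0 then X else C i)) ∧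
      ∃ a ∈ D (Iio k), Tr.pr a (.nat 0) ∈ X ∧ Eqv S (rel X) (rel (EEs d)) a (tg 2 t)) ?_
    have h1 : SD k S S' (fun _ σ => P (fun i => if i = 0 then σ 0 else C i)) := by
      refine (SD.subS (θ := fun i σ => if i = 0 then σ 0 else C i) hPd fun i => ?_)
      by_cases hi : i = 0
      · simp only [hi, if_true]
        exact SV.var 0
      · simp only [hi, if_false]
        exact SV.par (hC1 i)
    have h2 : SD k S S' (fun t σ => ∃ a ∈ D (Iio k), Tr.pr a (.nat 0) ∈ σ 0 ∧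
        Eqv S (rel (σ 0)) (rel (EEs d)) a (tg 2 t)) := by
      refine SD.exT (P := fun t a σ => Tr.pr a (.nat 0) ∈ σ 0 ∧
        Eqv S (rel (σ 0)) (rel (EEs d)) a (tg 2 t)) ?_
      refine SD.and (SD.mem (ST.pr (ST.fst ST.id) (ST.nat 0)) (SV.var 0)) ?_
      exact SD.appS2 (R := fun e X Y => Eqv S (rel X) (rel Y) e.fst e.snd)
        (t := fun e => Tr.pr e.fst (.pr (.nat 2) e.snd)) hq1
        (ST.pr (ST.fst ST.id) (ST.pr (ST.nat 2) (ST.snd ST.id))) (SV.var 0) (SV.par hEd)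
    exact (hq2.and h1).and h2
  have hsep := SOM.sep hdef hd
  convert hsep using 1
  ext t
  refine and_congr_right fun ht => ?_
  have ht2 : tg 2 t ∈ D (Iio d) := pr_mem.2 ⟨nat_mem _ _, ht⟩
  have ht2k : tg 2 t ∈ D (Iio k) := D_mono (Iio_subset_Iio hd.le) ht2
  have hvt : Cvl (rel (EEs d)) (enc t) (tg 2 t) := (hE5 d _ ht2 _).2 (hE3 t)
  -- the translation
  have key : ∀ X z, IsCd S X → Cvl (rel X) z (.nat 0) →
      (P (fun i => if i = 0 then X else C i) ↔ z = A) := by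
    intro X z hX hz
    have hzV : z ∈ Vof S := ⟨X, hX, hz⟩
    have h1 := hP (fun i => if i = 0 then X else C i)
      (fun i => if i = 0 then z else (p i : Z)) (fun i => by
        by_cases hi : i = 0
        · simp only [hi, if_true]
          exact ⟨hX, hz⟩
        · simp only [hi, if_false]
          exact ⟨hC2 i, hC3 i⟩)
    have h2 := hφ ⟨z, hzV⟩
    rw [sat_El] at h2
    have h3 : (fun i => ((Function.update p 0 ⟨z, hzV⟩ i : Vof S) : Z)) =
        fun i => if i = 0 then z else (p i : Z) := by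
      funext i
      by_cases hi : i = 0
      · subst hi; simp
      · rw [Function.update_of_ne hi, if_neg hi]
    rw [h3] at h2
    rw [h1, h2]
    exact ⟨fun h => congrArg Subtype.val h, fun h => Subtype.ext h⟩
  constructor
  · intro hta
    obtain ⟨X, hX, hXA⟩ := hAV
    obtain ⟨a, ha, hav⟩ := (hCVL.2.2.2.1 _ _ _ hXA (enc t)).1 hta
    refine ⟨X, hX.1, ⟨hX, (key X A hX hXA).2 rfl⟩, a, ?_, ha, ?_⟩
    · obtain ⟨d', hd', hXd⟩ := hS.bdd X hX.1
      exact (pr_mem.1 (D_mono (Iio_subset_Iio hd'.le) (hXd ha))).1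
    · have hak : a ∈ D (Iio k) := by
        obtain ⟨d', hd', hXd⟩ := hS.bdd X hX.1
        exact (pr_mem.1 (D_mono (Iio_subset_Iio hd'.le) (hXd ha))).1
      exact (hq3 X (EEs d) hX hEc a hak _ ht2k).2 ⟨enc t, hav, hvt⟩
  · rintro ⟨X, hXS, ⟨hX, hPX⟩, a, hak, ha, hEq⟩
    obtain ⟨z, hz⟩ := (hCOD k S hSS X hX).2.1 (.nat 0)
    have hzA := (key X z hX hz).1 hPX
    subst hzA
    obtain ⟨y, hy1, hy2⟩ := (hq3 X (EEs d) hX hEc a hak _ ht2k).1 hEq
    have hye : y = enc t := hCVL.1 _ _ _ _ hy2 hvt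
    subst hye
    exact (hCVL.2.2.2.1 _ _ _ hz _).2 ⟨a, ha, hy1⟩

end Pool.Agent.Helper17.OD.PkVOD
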